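import Pool.Agent.U282.RW.Kat

/-!
# MP_f8720a_ag (Q1): the local invariant cycles of the powers of a log scheme

`X` is a projective SNCL scheme over a log point over a finite field with `q` elements, `X ^ n` an SNCL
log modification of the fibre power over the log point, `F` a geometric Frobenius element, `N` the
monodromy operator on the log étale cohomology groups `H^m`. Let

* `r = 2 ∑ k * rank (N ^ k)`, for the operator `N` on the whole cohomology of `X`,
* `w = ∑ (wt α - m) ^ 2`, the sum over the eigenvalues `α` of `F` on the `H^m(X)`, `m ≥ 0`, where `wt α` is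
  the weight of the `q`-Weil number `α`,
* `inv Y` the dimension of the kernel of `N` on the whole cohomology of `Y`, and `cyc Y` the dimension of
  the subspace of the cycles which come from the étale cohomology of the underlying scheme of `Y`.

The local invariant cycle theorem for `Y` is the equality `cyc Y = inv Y`.

*Theorem.*

1. Kato's conjecture holds for `X` if and only if the local invariant cycle theorem holds for the
   self-product `X × X`.
2. If it holds for `X`, then the local invariant cycle theorem holds for all the powers `X ^ n`.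
3. If it does not hold for `X`, then `r < w` and `cyc (X ^ n) / inv (X ^ n)` tends to
   `(1 + √(r / w)) / 2`, a number less than `1`.
4. So it holds for `X` if for infinitely many `n` the share of `cyc (X ^ n)` in `inv (X ^ n)` is at least
   `1 - 1 / (4 w + 1)`.

For the proof see `Pool/Agent/U282/RW` (`Cyc`, `Kat`): the cycles are the part of the kernel of `N` whose
weights are at most the degree; Poincaré duality and the local limit theorem of the library
`Pool/Agent/Y163/MW` give the share of the other part.
-/

set_option autoImplicit false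

open Module Filter Topology

namespace Pool.Agent.Results.MP_f8720a_ag.CyclesOfPowers

universe u v w

open Pool.Agent.Y163.MW Pool.Agent.U644.KL Pool.Agent.U282.RW

variable {Ω : Type w} [Field Ω] [CharZero Ω] (T : LogSchemes.{u, v, w} Ω) (q : ℕ)

/-- The power `X ^ (n + 1)`. -/
def power (X : T.Obj) (n : ℕ) : T.Obj := T.times X X n

/-- The number `r = 2 ∑ k * rank (N ^ k)`. -/
noncomputable def rankSum (X : T.Obj) : ℤ := (T.H X).totRankMoment

/-- The number `w`, the sum of the `(wt α - m) ^ 2`. -/
noncomputable def weightSum (X : T.Obj) : ℤ := (T.H X).totWeightMoment q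

/-- The dimension of the kernel of `N` on the cohomology of `Y`. -/
noncomputable def inv (Y : T.Obj) : ℕ := (T.H Y).inv

/-- The dimension of the space of the invariant cycles which come from the underlying scheme. -/
noncomputable def cyc (Y : T.Obj) : ℕ := finrank Ω (cycles T Y)

/-- The limit law for the share of the invariant cycles. -/
def Law (X : T.Obj) : Prop :=
  0 ≤ rankSum T X ∧ rankSum T X < weightSum T q X ∧
    Tendsto (fun n : ℕ => (cyc T (power T X n) : ℝ) / (inv T (power T X n) : ℝ)) atTop
      (𝓝 ((1 + √((rankSum T X : ℝ) / (weightSum T q X : ℝ))) / 2))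

/-- For infinitely many `n` at most the share `1 / (4 w + 1)` of the kernel of `N` does not come from
the underlying scheme. -/
def FewMissing (X : T.Obj) : Prop :=
  ∃ᶠ n : ℕ in atTop, (4 * weightSum T q X + 1) *
    ((inv T (power T X n) : ℤ) - cyc T (power T X n)) ≤ inv T (power T X n)

/-- **The local invariant cycles of the powers of a log scheme.** -/
theorem result [IsAlgClosed Ω] (h : LogFacts T q) (X : T.Obj) :
    (T.Kato q X ↔ T.InvariantCycles (T.prod X X)) ∧
    (T.Kato q X → ∀ n, T.InvariantCycles (power T X n)) ∧
    (¬ T.Kato q X → Law T q X) ∧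
    (FewMissing T q X → T.Kato q X) := by
  refine ⟨kato_square h X, cycles_times h X, cycles_law h X, fun hfew => ?_⟩
  by_contra hcon
  obtain ⟨h1, h2, h3⟩ := cycles_law h X hcon
  set r := (T.H X).totRankMoment with hr
  set w := (T.H X).totWeightMoment q with hw
  have hw0 : (0 : ℝ) < w := by
    have : 0 < w := lt_of_le_of_lt h1 h2
    exact_mod_cast this
  have hrw : (r : ℝ) ≤ w - 1 := by
    have : r ≤ w - 1 := by omega
    exact_mod_cast this
  have h4 : √((r : ℝ) / w) ≤ 1 - 1 / (2 * w) := by
    have hw1 : (1 : ℝ) ≤ w := by
      have : 1 ≤ w := by omega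
      exact_mod_cast this
    apply Real.sqrt_le_iff.2
    constructor
    · rw [sub_nonneg, div_le_one (by positivity)]
      linarith
    · have e : (1 - 1 / (2 * (w : ℝ))) ^ 2 = 1 - 1 / w + 1 / (2 * w) ^ 2 := by
        field_simp
        ring
      rw [e]
      have h5 : (r : ℝ) / w ≤ 1 - 1 / w := by
        rw [div_le_iff₀ hw0]
        have : (1 - 1 / (w : ℝ)) * w = w - 1 := by field_simp
        rw [this]
        exact hrw
      have h6 : 0 ≤ 1 / (2 * (w : ℝ)) ^ 2 := by positivity
      linarith
  have h7 : (1 + √((r : ℝ) / w)) / 2 < 1 - 1 / (4 * (w : ℝ) + 1) := by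
    have h8 : 1 / (4 * (w : ℝ) + 1) < 1 / (4 * w) :=
      one_div_lt_one_div_of_lt (by positivity) (by linarith)
    have h9 : 1 / (4 * (w : ℝ)) = (1 / (2 * w)) / 2 := by
      field_simp
      norm_num
    linarith
  have h10 := h3.eventually_lt_const h7
  have hfew' : ∃ᶠ n : ℕ in atTop, (4 * w + 1) *
      (((T.H (T.times X X n)).inv : ℤ) - finrank Ω (cycles T (T.times X X n))) ≤
        (T.H (T.times X X n)).inv := hfew
  have h13 := h3.eventually_const_lt (u := 0) (by
    have := Real.sqrt_nonneg ((r : ℝ) / w)
    linarith)
  obtain ⟨n, hn, hn', hn''⟩ := (hfew'.and_eventually (h10.and h13)).exists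
  have h11 : (0 : ℝ) < ((T.H (T.times X X n)).inv : ℝ) := by
    rcases Nat.eq_zero_or_pos (T.H (T.times X X n)).inv with h0 | h0
    · rw [h0, Nat.cast_zero, div_zero] at hn''
      exact absurd hn'' (lt_irrefl _)
    · exact_mod_cast h0
  have h12 : (4 * (w : ℝ) + 1) * ((T.H (T.times X X n)).inv -
      finrank Ω (cycles T (T.times X X n))) ≤ (T.H (T.times X X n)).inv := by
    exact_mod_cast hn
  rw [div_lt_iff₀ h11] at hn'
  have h14 : (0 : ℝ) < 4 * w + 1 := by positivity
  have h15 := mul_lt_mul_of_pos_left hn' h14
  have h16 : (4 * (w : ℝ) + 1) * ((1 - 1 / (4 * w + 1)) * (T.H (T.times X X n)).inv) =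
      4 * w * (T.H (T.times X X n)).inv := by
    field_simp
    ring
  rw [h16] at h15
  linarith

end Pool.Agent.Results.MP_f8720a_ag.CyclesOfPowers
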