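import Pool.Agent.U644.KL.Main

/-!
# MP_f8720a_ag (Q1): Kato's log `ℓ`-adic monodromy-weight conjecture is equivalent to the local
invariant cycle theorem for log schemes

See `Pool/Agent/U644/KL/Defs.lean` for the definitions. Only Poincaré duality is used, the hard
Lefschetz theorem for the log étale cohomology (not known) is not.
-/

set_option autoImplicit false

namespace Pool.Agent.Results.MP_f8720a_ag.InvariantCycles

universe u v w

open Pool.Agent.U644.KL

variable {Ω : Type w} [Field Ω] [CharZero Ω] [IsAlgClosed Ω] (T : LogSchemes.{u, v, w} Ω) (q : ℕ)

/-- The equivalences for one log scheme `X`. -/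
def LocalForm (Z X : T.Obj) : Prop :=
  List.TFAE [T.Kato q X, ∀ n, T.InvariantCycles (T.times X Z n),
    T.InvariantCycles (T.times X Z (T.dim X - 1)),
    T.Bounded q (T.times X Z (T.dim X - 1))]

/-- The local invariant cycle theorem in dimension at most `2 d - 1` implies the conjecture in
dimension at most `d`. -/
def DimensionForm : Prop :=
  ∀ d, (∀ Y, T.dim Y ≤ 2 * d - 1 → T.InvariantCycles Y) → ∀ X, T.dim X ≤ d → T.Kato q X

/-- Let `T` be the data of the log étale cohomology of the projective SNCL schemes over a log point
over a finite field with `q` elements, with the known properties, `Z` a log Tate curve. Then for every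
`X` Kato's conjecture for `X` is equivalent to the local invariant cycle theorem for
`X × Z ^ (dim X - 1)`, the conjecture for all `X` is equivalent to the local invariant cycle theorem
for all `X`, and the local invariant cycle theorem in dimension at most `2 d - 1` implies the
conjecture in dimension at most `d`. -/
theorem result (Z : T.Obj) (h : T.Known q Z) :
    (∀ X, LocalForm T q Z X) ∧ ((∀ X, T.Kato q X) ↔ ∀ Y, T.InvariantCycles Y) ∧
      DimensionForm T q :=
  ⟨fun X => LogSchemes.local_form h X, LogSchemes.global_form h, LogSchemes.dim_form h⟩

end Pool.Agent.Results.MP_f8720a_ag.InvariantCycles
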