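import Pool.Agent.U865.KT.Main

/-!
# MP_f8720a_ag: Kato's log monodromy-weight conjecture for small strata, and for threefolds
-/

set_option autoImplicit false

open Module

universe u v

namespace Pool.Agent.Results.MP_f8720a_ag.SmallStrataAndThreefolds

open Pool.Agent.Y143 Pool.Agent.Helper60K9.KL Pool.Agent.U865.LS Pool.Agent.U865.KT

/-- Let `X` be the Kummer log etale cohomology of a projective SNCL scheme of relative dimension `n`
over a log point (finite residue field), given by the cohomology of the strata `Y^(m)`, with the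
groups `A` of the classes of components and divisors, and by the weight spectral sequence. The hard
Lefschetz theorem for the cohomology of `X` is not assumed. `KatoAt X m` is Kato's conjecture for
`H^m`.

1. Kato's conjecture is true for `H^m` if `m ≤ 1` or `m ≥ 2 n - 1`; for `m = 2` and `m = 2 n - 2` it
   is equivalent to `PrimGysin`; for `n = m = 3` it is equivalent to `DivCrit`.
2. It is true for the middle cohomology `H^n` if the strata are small.
3. Let `m ≤ n` and let the strata be small in the degrees up to `m - 1`. Then for all `e ≥ 1` the map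
   `N^e` on `gr^P` is injective for `H^m` and surjective for `H^(2n-m)`.
4. Let `m + 2 ≤ n`. If the maps `N^e`, `e ≥ 1`, are injective on `gr^P` for `H^m` and if for all `a`
   and `w` with `a + 1 + w = m` the restrictions to `Y^(a+2)` of the classes in `H^(w+2)(Y^(a+1))`
   are restrictions of classes `L x + τ z` with `x` in `H^w(Y^(a+1))` and `z` in `H^w(Y^(a+2))`, or
   `w + 2` is tame for all characters, then they are injective for `H^(m+2)`, and the conjecture is
   true for `H^(m+2)` if `m + 2 = n`. -/
theorem result {Ω : Type u} [Field Ω] [CharZero Ω] [IsAlgClosed Ω] {Γ : Type} {n q : ℕ}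
    (X : SemistableModel.{u, v} Ω Γ n q) (A : DivisorClasses X.toSpecialFibre) :
    ((∀ m : ℕ, m ≤ 1 ∨ 2 * n ≤ m + 1 → KatoAt X m) ∧
      (∀ m : ℕ, m = 2 ∨ m + 2 = 2 * n → (KatoAt X m ↔ PrimGysin X.toSpecialFibre 0)) ∧
      (n = 3 → (KatoAt X 3 ↔ DivCrit X.toSpecialFibre 0))) ∧
    (SmallStrata A n → KatoAt X n) ∧
    (∀ m : ℕ, m ≤ n → SmallStrata A m → ∀ e : ℕ, 1 ≤ e → GrInj X m e ∧ GrSurj X (2 * n - m) e) ∧
    (∀ m : ℕ, m + 2 ≤ n → (∀ e : ℕ, 1 ≤ e → GrInj X m e) →
      (∀ a w : ℕ, a + 1 + w = m → Steps X.toSpecialFibre a w ∨ ∀ χ, Tame A a (w + 2) χ) →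
      (∀ e : ℕ, 1 ≤ e → GrInj X (m + 2) e) ∧ (m + 2 = n → KatoAt X (m + 2))) := by
  refine ⟨⟨fun m hm => kato_outer A m hm, fun m hm => kato_two_iff A m hm, fun hn => ?_⟩,
    kato_small A, fun m hm h e he => ?_, fun m hm h hs => ?_⟩
  · subst hn
    exact katoAt_three A
  · have h1 := grInj_small A m hm h e he
    exact ⟨h1, (grInj_dual X m (2 * n - m) e (by omega)).1 h1⟩
  · have h1 := grInj_add_two A m hm h hs
    refine ⟨h1, fun hn => ?_⟩
    subst hn
    rw [katoAt_iff]
    intro e he
    rw [grIso_middle]
    exact h1 e he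

end Pool.Agent.Results.MP_f8720a_ag.SmallStrataAndThreefolds
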