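import Pool.Agent.U273.FS.LogSplit

/-!
# Kato's monodromy-weight conjecture and the zeta function of the smooth locus modulo `p`

Let `X` be a projective SNCL scheme over the log point over the field of `q` elements (for example the special
fibre of a strictly semistable scheme over a henselian discrete valuation ring), with geometrically irreducible
components, and `σ` an automorphism of the log scheme `X` which maps each component to itself, with
`σ ^ (p ^ (s + 1)) = 1` for a prime `p` with `q = 1` modulo `p`. Put `τ = σ ^ (p ^ s)`; suppose that `τ` acts trivially
on `H^i`, `i ≠ m` (log étale cohomology; for example `m = dim X` and `X` a degeneration of complete intersections). Let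
`U` be the set of the points of `X` on exactly one component which are not fixed by `τ`, `P₁ / P₂` the zeta
function of `U / σ`, and `H = P₂ / P₁` **modulo `p`** (for odd `m` its inverse); it is a polynomial. The moved part of
`H^m` is the complement of the `τ`-invariant classes.

**Theorem.**
1. Kato's conjecture for `X` is equivalent to the conjecture for the quotient `X / τ` together with the
   bijectivity of the maps `N ^ e` (`e ≥ 1`) on the moved part of `H^m`.
2. The sum of the moved parts of weight different from `m` has dimension at most `p ^ s (p - 1) deg H₂`, where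
   `H₂` is any factor of `H` which contains all its multiple factors. So this is the dimension of the space on
   which something remains to be proved.
3. **If `H` is squarefree modulo `p`, then the moved part of `H^m` is pure of weight `m` and `N = 0` on it**, and
   **Kato's conjecture for `X` is equivalent to the conjecture for `X / τ`**.

The dimension of `X` is arbitrary, projectivity is not used, and only the points on exactly one component enter: no
information on the strata (the double locus, etc.), on the weight spectral sequence or on the restriction and
Gysin maps is needed.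

The proof. At a geometric point on `k + 1` components the local term in the trace formula over the extension of
degree `n` is `(1 - q ^ n) ^ k`, so modulo a place above `p` all the strata with `k ≥ 1` cancel as `q = 1` modulo `p`.
For the eigenspace `V_ω` of `σ` in `H^m`, `ω` a primitive root of unity of order `p ^ (s + 1)`, this gives
`det(1 - F T | V_ω) = H` modulo `p` (`U273/FS/LogRed`). If `α` is an eigenvalue of `F` on `V_ω` of weight `w`, then
`q ^ m / α` is one on `V_{ω⁻¹}` (Poincaré duality), and as the traces of `F ^ n` on the `V_ω` are the same sums in `ℤ[ω]`, its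
complex conjugate `α q ^ (m - w)` is an eigenvalue **on the same `V_ω`**. Both are congruent modulo the place, since `q = 1`.
So for `w ≠ m` the polynomial `H` has a double root (`U273/FS/LogMain`, `U273/FS/LogCount`). Finally `N` maps the
part with the eigenvalue `α` to the part with `α / q`.

In the Lean statement `X` is an actual proper scheme with its geometric points and irreducible components; its log
étale cohomology enters through the trace formula (`IsLogCohomology`), the rationality of the L-functions of the strata
(`StrataAreRational`), the theorem on the weights (`AreWeilNumbers`) and Poincaré duality (`MiddleDuality`).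
-/

set_option autoImplicit false

open CategoryTheory AlgebraicGeometry Polynomial

namespace Pool.Agent.Results.MP_f8720a_ag.SquarefreeModP

open Pool.Agent.U273.FS

/-- **Squarefree modulo `p`.** -/
theorem result {κ : Type} [Field κ] [Fintype κ] {E : Type} [Field E] [CharZero E] [IsAlgClosed E]
    {p s : ℕ} (hp : p.Prime) (hq : ((Fintype.card κ : ℕ) : ZMod p) = 1) {X : Scheme.{0}}
    (π : X ⟶ Spec (CommRingCat.of κ)) [IsProper π] (σ : X ⟶ X) (hσ : σ ≫ π = π)
    (hcomp : PreservesComponents σ) (hord : power σ (p ^ (s + 1)) = 𝟙 X) (D : CohomologyGroups E)
    (hD : D.IsLogCohomology π σ hσ (p ^ (s + 1))) (m : ℕ) (hm : m ≤ D.top)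
    (htriv : TrivialOutside D m (p ^ s))
    (hstr : StrataAreRational E π σ hσ (p ^ (s + 1)) D.top)
    (hW : AreWeilNumbers (D.frob m) (Fintype.card κ)) (C : MiddleDuality D m (Fintype.card κ))
    (T : ∀ i, MonodromyOperator D i (Fintype.card κ)) (P₁ P₂ : ℤ[X])
    (hP : HasSmoothQuotientZeta E π σ hσ (p ^ s) (p ^ (s + 1)) P₁ P₂) (H : (ZMod p)[X])
    (hH : IsQuotientOfParity p m H P₁ P₂) :
    (KatoHolds T ↔ KatoHoldsForQuotient T (p ^ s) ∧ HoldsOnMoved (T m) p (p ^ s)) ∧
    (∀ H₂ : (ZMod p)[X], IsMultiplePart p H H₂ →
      impureDimension D m (Fintype.card κ) p (p ^ s) ≤ p ^ s * (p - 1) * H₂.natDegree) ∧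
    (Squarefree H → IsPureWithoutMonodromy (T m) p (p ^ s) ∧
      (KatoHolds T ↔ KatoHoldsForQuotient T (p ^ s))) := by
  have hother : ∀ i, i ≠ m → invariantsIn D i (p ^ s) = ⊤ := by
    intro i hi
    rw [eq_top_iff]
    intro v _
    change (D.aut i ^ p ^ s - 1 : Module.End E (D.H i)) v = 0
    rw [LinearMap.sub_apply, Module.End.one_apply, htriv i hi v, sub_self]
  have h1 : KatoHolds T ↔ KatoHoldsForQuotient T (p ^ s) ∧ HoldsOnMoved (T m) p (p ^ s) := by
    have hs := kato_split hp (hD.order m) (hD.commute m) (T m).aut (Fintype.card κ) m
    constructor
    · intro h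
      refine ⟨fun i => ?_, (hs.1 (h m)).2⟩
      by_cases hi : i = m
      · subst hi
        exact (hs.1 (h i)).1
      · rw [hother i hi]
        exact h i
    · rintro ⟨h, h'⟩ i
      by_cases hi : i = m
      · subst hi
        exact hs.2 ⟨h i, h'⟩
      · have h2 := h i
        rwa [hother i hi] at h2
  refine ⟨h1, fun H₂ hH₂ => ?_, fun hsq => ?_⟩
  · exact impure_le hp hq π σ hσ hcomp hord D hD m hm htriv hstr hW P₁ P₂ hP H hH C H₂ hH₂
  · have hpure := squarefree_pure hp hq π σ hσ hcomp hord D hD m hm htriv hstr hW P₁ P₂ hP H hH C
      hsq (T m)
    refine ⟨fun x hx => ⟨(hpure hx).1, (hpure hx).2⟩, ?_⟩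
    rw [h1, and_iff_left_iff_imp]
    intro h
    have he := equiv_of_pure (Φ := D.frob m) (g := D.aut m) hp (hD.order m) (hD.commute m)
      Fintype.one_lt_card (hpure.trans inf_le_left) (T m).N
    have hs := kato_split hp (hD.order m) (hD.commute m) (T m).aut (Fintype.card κ) m
    exact (hs.1 (he.2 (h m))).2

end Pool.Agent.Results.MP_f8720a_ag.SquarefreeModP
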